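import Pool.Agent.Work.MP_14a437_ag.E.Form

/-!
# Hyp : the class of categories, and the topology of the space of stability conditions (FIXED)
-/

open CategoryTheory CategoryTheory.Limits CategoryTheory.Pretriangulated

universe v u

namespace MP_14a437_ag

/-- Triangulated categories `C` which are of finite type and numerically 2-Calabi-Yau over `k`, not a
direct sum of two nonzero orthogonal subcategories, with Grothendieck group free of finite rank, whose
Euler form is positive semidefinite with radical of rank two.  The categories `D_r`, `r = 3, 4, 6`, of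
local elliptic orbifold quotients (over `k = ℂ`) are of this kind: `K(D_r) = K(Coh X)` is free of rank
8, 9, 10, with the symmetrized Euler form of a weighted projective line of tubular type. -/
structure IsTubularCY2 (k : Type*) [Field k] (C : Type u) [Category.{v} C] [Preadditive C]
    [HasZeroObject C] [HasShift C ℤ] [∀ n : ℤ, (shiftFunctor C n).Additive] [Pretriangulated C]
    [Linear k C] : Prop where
  cy : IsCY2 C k
  indecomposable : IsIndecomposable C
  free : Module.Free ℤ (K0 C)
  finite : Module.Finite ℤ (K0 C)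
  semidefinite : ∀ E : C, 0 ≤ chi k E E
  rank_radical : Module.finrank ℤ (radical cy) = 2

variable {C : Type u} [Category.{v} C] [Preadditive C] [HasZeroObject C] [HasShift C ℤ]
  [∀ n : ℤ, (shiftFunctor C n).Additive] [Pretriangulated C]

theorem Near.mono {S T : Slicing C} {ε δ : ℝ} (h : Near S T ε) (hεδ : ε ≤ δ) : Near S T δ :=
  fun E l m hl hm h1 h2 =>
    ⟨(h E l m hl hm h1 h2).1.trans hεδ, (h E l m hl hm h1 h2).2.trans hεδ⟩

/-- The determinant of `(Z a, Z b)`. -/
noncomputable def orient (a b : K0 C) (σ : StabCond C) : ℝ := (starRingEnd ℂ (σ.Z a) * σ.Z b).im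

/-- The topology of the space of stability conditions given by the generalized metric
`f(σ,τ) = sup_E max(|φ⁺_σ(E) - φ⁺_τ(E)|, |φ⁻_σ(E) - φ⁻_τ(E)|)`: a set `U` is open if with each `σ` it
contains a ball around `σ`. -/
instance stabTopology : TopologicalSpace (StabCond C) where
  IsOpen U := ∀ σ ∈ U, ∃ ε : ℝ, 0 < ε ∧ ∀ τ : StabCond C, Near σ.toSlicing τ.toSlicing ε → τ ∈ U
  isOpen_univ := fun _ _ => ⟨1, one_pos, fun _ _ => trivial⟩
  isOpen_inter := by
    rintro U V hU hV σ ⟨h1, h2⟩
    obtain ⟨ε, hε, h3⟩ := hU σ h1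
    obtain ⟨δ, hδ, h4⟩ := hV σ h2
    exact ⟨min ε δ, lt_min hε hδ, fun τ h => ⟨h3 τ (h.mono (min_le_left _ _)),
      h4 τ (h.mono (min_le_right _ _))⟩⟩
  isOpen_sUnion := by
    rintro s hs σ ⟨U, hU, hσ⟩
    obtain ⟨ε, hε, h⟩ := hs U hU σ hσ
    exact ⟨ε, hε, fun τ hτ => ⟨U, hU, h τ hτ⟩⟩

theorem isOpen_stab_iff (U : Set (StabCond C)) : IsOpen U ↔
    ∀ σ ∈ U, ∃ ε : ℝ, 0 < ε ∧ ∀ τ : StabCond C, Near σ.toSlicing τ.toSlicing ε → τ ∈ U := Iff.rfl

end MP_14a437_ag
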