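import Mathlib

/-!
# MP_14a437_ag : definitions  (FIXED: do not change; tell helper76 if something is wrong)

`C` is a triangulated category, linear over a field `k`.  `K0 C` is its Grothendieck group, `chi` the
Euler form, `Slicing` / `StabCond` Bridgeland's slicings and stability conditions (with support
property), `Near` the ball relation of Bridgeland's generalized metric.
-/

open CategoryTheory CategoryTheory.Limits CategoryTheory.Pretriangulated

universe v u

namespace MP_14a437_ag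

section Basic

variable (C : Type u) [Category.{v} C] [Preadditive C] [HasZeroObject C] [HasShift C ℤ]
  [∀ n : ℤ, (shiftFunctor C n).Additive] [Pretriangulated C]

/-- The relations `[Y] - [X] - [Z]`, one for every distinguished triangle `X → Y → Z → X[1]`. -/
def K0Rel : Set (FreeAbelianGroup C) :=
  {x | ∃ T : Triangle C, T ∈ distTriang C ∧
    x = FreeAbelianGroup.of T.obj₂ - FreeAbelianGroup.of T.obj₁ - FreeAbelianGroup.of T.obj₃}

/-- The Grothendieck group of the triangulated category `C`. -/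
def K0 : Type u := FreeAbelianGroup C ⧸ AddSubgroup.closure (K0Rel C)

noncomputable instance : AddCommGroup (K0 C) :=
  inferInstanceAs (AddCommGroup (FreeAbelianGroup C ⧸ AddSubgroup.closure (K0Rel C)))

variable {C}

/-- The class of an object in the Grothendieck group. -/
noncomputable def cl (X : C) : K0 C :=
  (QuotientAddGroup.mk (FreeAbelianGroup.of X) :
    FreeAbelianGroup C ⧸ AddSubgroup.closure (K0Rel C))

/-- The Euler characteristic `χ(X,Y) = ∑ (-1)^n dim Hom(X, Y[n])`. -/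
noncomputable def chi (k : Type*) [Field k] [Linear k C] (X Y : C) : ℤ :=
  ∑ᶠ n : ℤ, (n.negOnePow : ℤ) * (Module.finrank k (X ⟶ Y⟦n⟧) : ℤ)

variable (C)

/-- `C` is of finite type over `k` and numerically 2-Calabi-Yau. -/
structure IsCY2 (k : Type*) [Field k] [Linear k C] : Prop where
  hom_finite : ∀ X Y : C, Module.Finite k (X ⟶ Y)
  hom_bounded : ∀ X Y : C, {n : ℤ | ∃ f : X ⟶ Y⟦n⟧, f ≠ 0}.Finite
  serre : ∀ (X Y : C) (n : ℤ),
    Module.finrank k (X ⟶ Y⟦n⟧) = Module.finrank k (Y ⟶ X⟦(2 - n : ℤ)⟧)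

/-- `C` is not a direct sum of two nonzero mutually orthogonal shift-stable subcategories. -/
def IsIndecomposable : Prop :=
  ∀ P Q : ObjectProperty C, P.IsStableUnderShift ℤ → Q.IsStableUnderShift ℤ →
    (∀ X Y : C, P X → Q Y → ∀ f : X ⟶ Y, f = 0) →
    (∀ X Y : C, P X → Q Y → ∀ f : Y ⟶ X, f = 0) →
    (∀ E : C, ∃ X Y : C, P X ∧ Q Y ∧ Nonempty (E ≅ X ⊞ Y)) →
    (∀ X : C, P X → IsZero X) ∨ (∀ Y : C, Q Y → IsZero Y)

variable {C}

/-- `HN P E l`: the object `E` has a filtration whose factors are nonzero objects of the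
subcategories `P φ`, where `l` is the strictly increasing list of the phases `φ` of the factors.
(The filtration is `0 = E₀ → E₁ → ⋯ → Eₙ = E`; the head of `l` is the phase of the last
factor `cone(Eₙ₋₁ → Eₙ)`, which is the smallest one.) -/
inductive HN (P : ℝ → ObjectProperty C) : C → List ℝ → Prop
  | zero {E : C} (h : IsZero E) : HN P E []
  | cons {E' E A : C} {l : List ℝ} {φ : ℝ} (f : E' ⟶ E) (g : E ⟶ A) (h : A ⟶ E'⟦(1 : ℤ)⟧)
      (hT : Triangle.mk f g h ∈ distTriang C) (hE' : HN P E' l) (hA : P φ A)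
      (hA0 : ¬ IsZero A) (hl : ∀ ψ ∈ l, φ < ψ) : HN P E (φ :: l)

variable (C)

/-- A slicing (Bridgeland, Stability conditions on triangulated categories, Definition 3.3). -/
structure Slicing where
  /-- the full subcategory of semistable objects of phase `φ` -/
  P : ℝ → ObjectProperty C
  iso : ∀ φ, (P φ).IsClosedUnderIsomorphisms
  zero : ∀ (φ : ℝ) (X : C), IsZero X → P φ X
  biprod : ∀ (φ : ℝ) (X Y : C), P φ X → P φ Y → P φ (X ⊞ Y)
  shift : ∀ (φ : ℝ) (X : C), P (φ + 1) (X⟦(1 : ℤ)⟧) ↔ P φ X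
  hom : ∀ (φ ψ : ℝ) (X Y : C), ψ < φ → P φ X → P ψ Y → ∀ f : X ⟶ Y, f = 0
  exists_hn : ∀ E : C, ∃ l : List ℝ, HN P E l

/-- A stability condition `σ = (Z, P)` with the support property.  (The last field says that every
linear functional on the Grothendieck group is bounded by a multiple of `|Z|` on semistable classes;
for a Grothendieck group of finite rank this is the support property `‖v‖ ≤ c |Z(v)|`.) -/
structure StabCond extends Slicing C where
  /-- the central charge -/
  Z : K0 C →+ ℂ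
  compat : ∀ (φ : ℝ) (E : C), P φ E → ¬ IsZero E →
    ∃ m : ℝ, 0 < m ∧ Z (cl E) = m * Complex.exp (Real.pi * φ * Complex.I)
  support : ∀ l : K0 C →+ ℝ, ∃ c : ℝ, ∀ (φ : ℝ) (E : C), P φ E → |l (cl E)| ≤ c * ‖Z (cl E)‖

variable {C}

/-- `Near S T ε`: one has `|φ⁺_S(E) - φ⁺_T(E)| ≤ ε` and `|φ⁻_S(E) - φ⁻_T(E)| ≤ ε` for all nonzero
`E`, i.e. the generalized distance of `S` and `T` is at most `ε`. -/
def Near (S T : Slicing C) (ε : ℝ) : Prop :=
  ∀ (E : C) (l m : List ℝ) (hl : l ≠ []) (hm : m ≠ []), HN S.P E l → HN T.P E m →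
    |l.head hl - m.head hm| ≤ ε ∧ |l.getLast hl - m.getLast hm| ≤ ε

/-- Objects all of whose HN phases lie in the set `I`. -/
def Slicing.PS (S : Slicing C) (I : Set ℝ) : ObjectProperty C :=
  fun E => ∃ l : List ℝ, HN S.P E l ∧ ∀ φ ∈ l, φ ∈ I

/-- The heart `P((a, a+1])`. -/
def Slicing.heart (S : Slicing C) (a : ℝ) : ObjectProperty C := S.PS (Set.Ioc a (a + 1))

/-- Simple objects of a full subcategory `H`: nonzero, and not the middle term of a distinguished
triangle `A → E → B → A[1]` with `A`, `B` nonzero in `H`. -/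
def TSimple (H : ObjectProperty C) : ObjectProperty C := fun E =>
  H E ∧ ¬ IsZero E ∧ ∀ (A B : C) (f : A ⟶ E) (g : E ⟶ B) (h : B ⟶ A⟦(1 : ℤ)⟧),
    Triangle.mk f g h ∈ distTriang C → H A → H B → IsZero A ∨ IsZero B

/-- Extension closure: the smallest class of objects which contains `S` and the zero objects and is
closed under extensions. -/
inductive Ext (S : ObjectProperty C) : C → Prop
  | zero {E : C} (h : IsZero E) : Ext S E
  | of {E : C} (h : S E) : Ext S E
  | ext {A E B : C} (f : A ⟶ E) (g : E ⟶ B) (h : B ⟶ A⟦(1 : ℤ)⟧)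
      (hT : Triangle.mk f g h ∈ distTriang C) (hA : Ext S A) (hB : Ext S B) : Ext S E

/-- Every object of `H` is a finite iterated extension of simple objects of `H`. -/
def FiniteLength (H : ObjectProperty C) : Prop := ∀ E, H E → Ext (TSimple H) E

/-- Admissible abelian subcategories (Beilinson, Bernstein, Deligne, Faisceaux pervers, 1.2.5). -/
structure IsAdm (H : ObjectProperty C) : Prop where
  iso : H.IsClosedUnderIsomorphisms
  zero : ∀ X : C, IsZero X → H X
  ext : ∀ {A E B : C} (f : A ⟶ E) (g : E ⟶ B) (h : B ⟶ A⟦(1 : ℤ)⟧),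
    Triangle.mk f g h ∈ distTriang C → H A → H B → H E
  hom_neg : ∀ (X Y : C) (n : ℤ), n < 0 → H X → H Y → ∀ f : X ⟶ Y⟦n⟧, f = 0
  adm : ∀ {X Y W : C} (f : X ⟶ Y) (g : Y ⟶ W) (h : W ⟶ X⟦(1 : ℤ)⟧),
    Triangle.mk f g h ∈ distTriang C → H X → H Y →
      ∃ (K Q : C) (α : K⟦(1 : ℤ)⟧ ⟶ W) (β : W ⟶ Q) (γ : Q ⟶ (K⟦(1 : ℤ)⟧)⟦(1 : ℤ)⟧),
        Triangle.mk α β γ ∈ distTriang C ∧ H K ∧ H Q

end Basic

end MP_14a437_ag
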