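import Pool.Agent.Work.MP_14a437_ag.T.Orient
import Pool.Agent.Work.MP_14a437_ag.B.Thm
import Pool.Agent.Work.MP_14a437_ag.L.Rank2
import Pool.Agent.Work.MP_14a437_ag.Hyp

/-!
# Final : assembly (helper76)
-/

open CategoryTheory CategoryTheory.Limits CategoryTheory.Pretriangulated

universe v u

namespace MP_14a437_ag

variable {C : Type u} [Category.{v} C] [Preadditive C] [HasZeroObject C] [HasShift C ℤ]
  [∀ n : ℤ, (shiftFunctor C n).Additive] [Pretriangulated C] [IsTriangulated C]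
variable {k : Type*} [Field k] [IsAlgClosed k] [Linear k C]

theorem psd_of_obj (hCY : IsCY2 C k) (h : ∀ E : C, 0 ≤ chi k E E) (x : K0 C) :
    0 ≤ eulerForm hCY x x := by
  obtain ⟨X, rfl⟩ := exists_obj x
  rw [eulerForm_cl]; exact h X

/-- Main theorem. -/
theorem main [Module.Free ℤ (K0 C)] [Module.Finite ℤ (K0 C)] (hCY : IsCY2 C k)
    (hInd : IsIndecomposable C) (hpsd : ∀ E : C, 0 ≤ chi k E E)
    (hrank : Module.finrank ℤ (radical hCY) = 2) :
    -- no slicing has a heart of finite length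
    (∀ (S : Slicing C) (a : ℝ), ¬ FiniteLength (S.heart a)) ∧
    -- stable objects of large mass in every sector
    (∀ (σ : StabCond C) (s t R : ℝ), s < t →
      ∃ (φ : ℝ) (X : C), s < φ ∧ φ < t ∧ TSimple (σ.P φ) X ∧ R < ‖σ.Z (cl X)‖) ∧
    -- the central charge is nondegenerate on the radical, and its orientation is locally constant
    (∀ a ∈ radical hCY, ∀ b ∈ radical hCY, (∀ m n : ℤ, m • a + n • b = 0 → m = 0 ∧ n = 0) →
      (∀ σ : StabCond C, orient a b σ ≠ 0) ∧
      (∀ (σ τ : StabCond C) (ε : ℝ), 0 ≤ ε → ε < 1 / 2 → Near σ.toSlicing τ.toSlicing ε →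
        0 < orient a b σ * orient a b τ) ∧
      IsClopen {σ : StabCond C | 0 < orient a b σ} ∧
      IsClopen {σ : StabCond C | orient a b σ < 0}) ∧
    -- semistable objects of radical class in rational directions
    (∀ (σ : StabCond C) (θ δ : ℝ), 0 < δ → (∀ x : K0 C, 0 < ht σ θ x → δ ≤ ht σ θ x) →
      ∃ E : C, σ.P θ E ∧ ¬ IsZero E ∧ cl E ∈ radical hCY) := by
  have hpsd' := psd_of_obj hCY hpsd
  obtain ⟨a, ha, b, hb, hab⟩ := exists_basis_rank_two (radical hCY) hrank
  refine ⟨?_, ?_, ?_, ?_⟩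
  · intro S t hfl
    obtain ⟨m, n, hmn, h0⟩ := not_finiteLength hCY hInd hpsd' S t hfl a b ha hb
    obtain ⟨rfl, rfl⟩ := hab m n h0
    simp at hmn
  · intro σ s t R hst
    exact key hCY hInd hpsd' ha hb hab σ s t hst R
  · intro a ha b hb hab
    have hspan := span_of_rank_two (radical hCY) hrank ha hb hab
    have h0 : ∀ σ : StabCond C, orient a b σ ≠ 0 :=
      orient_ne_zero hCY hInd hpsd' ha hb hab hspan
    have h1 : ∀ (σ τ : StabCond C) (ε : ℝ), 0 ≤ ε → ε < 1 / 2 →
        Near σ.toSlicing τ.toSlicing ε → 0 < orient a b σ * orient a b τ :=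
      fun σ τ ε hε0 hε hn => orient_near hCY hInd hpsd' ha hb hab hspan σ τ hε0 hε hn
    have hop : IsOpen {σ : StabCond C | 0 < orient a b σ} := by
      rw [isOpen_stab_iff]
      intro σ hσ
      refine ⟨1 / 4, by norm_num, fun τ hτ => ?_⟩
      exact (pos_iff_pos_of_mul_pos (h1 σ τ _ (by norm_num) (by norm_num) hτ)).1 hσ
    have hon : IsOpen {σ : StabCond C | orient a b σ < 0} := by
      rw [isOpen_stab_iff]
      intro σ hσ
      refine ⟨1 / 4, by norm_num, fun τ hτ => ?_⟩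
      exact (neg_iff_neg_of_mul_pos (h1 σ τ _ (by norm_num) (by norm_num) hτ)).1 hσ
    have hc1 : {σ : StabCond C | 0 < orient a b σ}ᶜ = {σ : StabCond C | orient a b σ < 0} := by
      ext σ
      simp only [Set.mem_compl_iff, Set.mem_setOf_eq, not_lt]
      exact ⟨fun h => lt_of_le_of_ne h (h0 σ), le_of_lt⟩
    have hc2 : {σ : StabCond C | orient a b σ < 0}ᶜ = {σ : StabCond C | 0 < orient a b σ} := by
      rw [← hc1, compl_compl]
    exact ⟨h0, h1, ⟨⟨by rw [hc1]; exact hon⟩, hop⟩, ⟨⟨by rw [hc2]; exact hop⟩, hon⟩⟩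
  · intro σ θ δ hδ hdisc
    exact exists_radical_semistable hCY hInd hpsd' ha hb hab σ θ hδ hdisc

end MP_14a437_ag
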